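import Pool.Agent.REV.StmtsU

/-!
# Row IMP of squad REV (MP_bbfd73_gt): improved lower comparison
-/

set_option autoImplicit false

namespace Pool.Agent.REV.H57

open Set Filter
open scoped Topology
open Pool.Agent.REV

theorem anti_of_cont_at_zero {F : ℝ → ℝ} (hF : ContinuousWithinAt F (Icc 0 1) 0)
    (h : ∀ c1 : ℝ, 0 < c1 → AntitoneOn F (Icc c1 1)) : AntitoneOn F (Icc 0 1) := by
  intro c hc c' hc' hcc
  rcases eq_or_lt_of_le hc.1 with h0 | h0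
  · subst h0
    rcases eq_or_lt_of_le hc'.1 with h1 | h1
    · subst h1
      exact le_rfl
    · have hne : (𝓝[Ioo 0 c'] (0 : ℝ)).NeBot := left_nhdsWithin_Ioo_neBot h1
      have hsub : Ioo 0 c' ⊆ Icc (0 : ℝ) 1 := fun x hx => ⟨hx.1.le, hx.2.le.trans hc'.2⟩
      have ht : Tendsto F (𝓝[Ioo 0 c'] (0 : ℝ)) (𝓝 (F 0)) := hF.mono hsub
      refine ge_of_tendsto ht ?_
      filter_upwards [self_mem_nhdsWithin] with x hx
      exact h x hx.1 ⟨le_rfl, hx.2.le.trans hc'.2⟩ ⟨hx.2.le, hc'.2⟩ hx.2.le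
  · exact h c h0 ⟨le_rfl, hc.2⟩ ⟨hcc, hc'.2⟩ hcc

/-- IMP. -/
theorem imp (ymo : YmoStmt) (rct : RctStmt) (rpo : RpoStmt) (wlm : WlmStmt) (mra : MraStmt)
    (cvb : CvbStmt) : ImpStmt := by
  intro n C b b1 f hn hf hC hb hbb1 hb1 hupp hineq
  have hn' : (4 : ℝ) ≤ n := by exact_mod_cast hn
  have hb11 : 0 < b1 := hb.trans hbb1
  obtain ⟨a', ha'1, ha'b, hW⟩ := wlm n b b1 hn hb hbb1 hb1
  refine ⟨a' - 1, by linarith, by linarith, ?_⟩
  have hcA : ContinuousOn (RA n f) (Icc 0 1) := ((rct n f hn).2 hf.cont).1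
  obtain ⟨M, hM⟩ := isCompact_Icc.exists_bound_of_continuousOn hf.cont
  have hpos : ∀ c ∈ Icc (0 : ℝ) 1, 0 < RA n f c ∧ 0 < RB n f c ∧ RA n f c ≤ M ∧ RB n f c ≤ M := by
    apply rpo n f M hn hf.cont
    intro t ht
    refine ⟨hf.pos t ht, ?_⟩
    have := hM t ht
    rw [Real.norm_eq_abs] at this
    exact (le_abs_self _).trans this
  -- N is antitone
  have hN : AntitoneOn (fun c => (1 + (b1 - 1) * c ^ 2) * RA n f c ^ 2) (Icc 0 1) := by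
    apply anti_of_cont_at_zero
    · have h1 : ContinuousWithinAt (RA n f) (Icc 0 1) 0 := hcA 0 ⟨le_rfl, zero_le_one⟩
      have h2 : ContinuousWithinAt (fun c : ℝ => 1 + (b1 - 1) * c ^ 2) (Icc 0 1) 0 := by
        fun_prop
      exact h2.mul (h1.pow 2)
    · intro c1 hc1
      apply (ymo n f b1 c1 1 hn hf.cont hf.pos hc1 le_rfl).2
      intro c hc
      exact hineq c ⟨hc1.le.trans hc.1, hc.2⟩
  have hRB : AntitoneOn (RB' n b f) (Icc 0 1) :=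
    ((mra n b f hn hb (fun t ht => (hf.pos t ht).le)).2.2 hupp).2
  have hRB0 : ∀ c ∈ Icc (0 : ℝ) 1, 0 ≤ RB' n b f c := fun c hc =>
    ((mra n b f hn hb (fun t ht => (hf.pos t ht).le)).1 c hc).2
  -- abbreviations
  have hsI : ∀ t ∈ Icc (0 : ℝ) 1, Real.sqrt (1 - t ^ 2) ∈ Icc (0 : ℝ) 1 := by
    intro t ht
    refine ⟨Real.sqrt_nonneg _, ?_⟩
    rw [Real.sqrt_le_one]
    nlinarith [ht.1, sq_nonneg t]
  have hsq : ∀ t ∈ Icc (0 : ℝ) 1, Real.sqrt (1 - t ^ 2) ^ 2 = 1 - t ^ 2 := by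
    intro t ht
    apply Real.sq_sqrt
    nlinarith [ht.1, ht.2]
  have hsanti : ∀ t ∈ Icc (0 : ℝ) 1, ∀ t' ∈ Icc (0 : ℝ) 1, t ≤ t' →
      Real.sqrt (1 - t' ^ 2) ≤ Real.sqrt (1 - t ^ 2) := by
    intro t ht t' _ htt
    apply Real.sqrt_le_sqrt
    have := pow_le_pow_left₀ ht.1 htt 2
    linarith
  have hx : ∀ t ∈ Icc (0 : ℝ) 1, t ^ 2 ∈ Icc (0 : ℝ) 1 := by
    intro t ht
    exact ⟨sq_nonneg t, by nlinarith [ht.1, ht.2]⟩
  -- the formula
  have hform : ∀ t ∈ Icc (0 : ℝ) 1, El n a' f t =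
      C * (((1 + (a' - 1) * t ^ 2) ^ (((n : ℝ) + 1) / 2) *
        ((b + (1 - b) * t ^ 2) ^ (-(3 / 2) : ℝ) *
          (b1 + (1 - b1) * t ^ 2) ^ (-(((n : ℝ) - 2) / 2)))) *
        (RB' n b f (Real.sqrt (1 - t ^ 2)) *
          ((1 + (b1 - 1) * Real.sqrt (1 - t ^ 2) ^ 2) * RA n f (Real.sqrt (1 - t ^ 2)) ^ 2) ^
            (((n : ℝ) - 2) / 2))) := by
    intro t ht
    have hs := hsI t ht
    have hs2 := hsq t ht
    have e1 := hf.eq t ht
    have e2 := cvb n b (Real.sqrt (1 - t ^ 2)) f hn hb hs.1 hs.2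
    have hA := (hpos _ hs).1
    rw [hs2] at e2
    have e3 : 1 + (b - 1) * (1 - t ^ 2) = b + (1 - b) * t ^ 2 := by ring
    rw [e3] at e2
    have e4 : 1 + (b1 - 1) * Real.sqrt (1 - t ^ 2) ^ 2 = b1 + (1 - b1) * t ^ 2 := by
      rw [hs2]; ring
    have hp : 0 < b1 + (1 - b1) * t ^ 2 := by
      have : 0 ≤ (1 - b1) * t ^ 2 := mul_nonneg (by linarith) (sq_nonneg t)
      linarith
    have e5 : RA n f (Real.sqrt (1 - t ^ 2)) ^ (n - 2) =
        (b1 + (1 - b1) * t ^ 2) ^ (-(((n : ℝ) - 2) / 2)) *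
          ((b1 + (1 - b1) * t ^ 2) * RA n f (Real.sqrt (1 - t ^ 2)) ^ 2) ^
            (((n : ℝ) - 2) / 2) := by
      rw [Real.mul_rpow hp.le (sq_nonneg _), ← mul_assoc, ← Real.rpow_add hp]
      have h0 : -(((n : ℝ) - 2) / 2) + ((n : ℝ) - 2) / 2 = 0 := by ring
      rw [h0, Real.rpow_zero, one_mul]
      rw [← Real.rpow_natCast (RA n f (Real.sqrt (1 - t ^ 2))) 2, ← Real.rpow_mul hA.le,
        ← Real.rpow_natCast]
      congr 1
      rw [Nat.cast_sub (by omega)]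
      push_cast
      ring
    unfold El
    rw [e1, e2, e5, e4]
    ring
  have ha' : 1 + (a' - 1) = a' := by ring
  rw [ha']
  intro t ht t' ht' htt
  have hs := hsI t ht
  have hs' := hsI t' ht'
  have hss := hsanti t ht t' ht' htt
  have hx1 := hx t ht
  have hx2 := hx t' ht'
  have hxx : t ^ 2 ≤ t' ^ 2 := pow_le_pow_left₀ ht.1 htt 2
  have hW1 := hW hx1 hx2 hxx
  have hB1 := hRB hs' hs hss
  have hN1 := hN hs' hs hss
  have hNn : ∀ c ∈ Icc (0 : ℝ) 1, 0 ≤ (1 + (b1 - 1) * c ^ 2) * RA n f c ^ 2 := by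
    intro c hc
    apply mul_nonneg _ (sq_nonneg _)
    have h3 : c ^ 2 ≤ 1 := by nlinarith [hc.1, hc.2]
    nlinarith
  have hpn : ∀ (β : ℝ), 0 < β → β < 1 → ∀ x : ℝ, 0 ≤ x → 0 ≤ β + (1 - β) * x := by
    intro β h1 h2 x h3
    have : 0 ≤ (1 - β) * x := mul_nonneg (by linarith) h3
    linarith
  have hWn : ∀ x : ℝ, x ∈ Icc (0 : ℝ) 1 → 0 ≤ (1 + (a' - 1) * x) ^ (((n : ℝ) + 1) / 2) *
        ((b + (1 - b) * x) ^ (-(3 / 2) : ℝ) *
          (b1 + (1 - b1) * x) ^ (-(((n : ℝ) - 2) / 2))) := by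
    intro x hx
    apply mul_nonneg
    · apply Real.rpow_nonneg
      have : 0 ≤ (a' - 1) * x := mul_nonneg (by linarith) hx.1
      linarith
    · exact mul_nonneg (Real.rpow_nonneg (hpn b hb (hbb1.trans hb1) x hx.1) _)
        (Real.rpow_nonneg (hpn b1 hb11 hb1 x hx.1) _)
  rw [hform t ht, hform t' ht']
  apply mul_le_mul_of_nonneg_left _ hC.le
  apply mul_le_mul hW1 _ _ (hWn _ hx2)
  · apply mul_le_mul hB1 _ _ (hRB0 _ hs')
    · exact Real.rpow_le_rpow (hNn _ hs) hN1 (by linarith)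
    · exact Real.rpow_nonneg (hNn _ hs) _
  · exact mul_nonneg (hRB0 _ hs) (Real.rpow_nonneg (hNn _ hs) _)

end Pool.Agent.REV.H57
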